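import Pool.Agent.Helper12.PV.Var
import Pool.Agent.Helper12.PV.Cnt
import Pool.Graph.R_pool_sql_team_seeded_b677cdb8.Results.MP_a1f59e_nt.PairsWithAlmostEveryGapH16

/-!
# Almost every progression of three primes, arbitrary sparse sets of gaps: an asymptotic formula

The problem asks for arithmetic progressions of primes `p` for which `p + 2` is prime too. Here the gap `2` is replaced by
the elements `h` of an ARBITRARY set `S` of integers up to `N`, which may be as sparse as a negative power of `log N`.  For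
almost every progression `x, x + y, x + 2 y ≤ N` (all but `N ^ 2 / log ^ U N` of them, for every `U`, so in particular for
almost every progression of three PRIMES, whose number is of the order of `N ^ 2 / log ^ 3 N`), the number of the `h` in `S`
for which `x + h`, `x + y + h`, `x + 2 y + h` are all prime is the predicted one: the number of the `h` in `S` for which these
three numbers have no prime factor up to a power of `log N`, times the cube of the probability that such an integer is prime.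

The proof computes the variance over all progressions. Opening the square, the two gaps `h, h'` lead to progressions of the
prime pairs `p + h, p + h'`; for almost all pairs `(h, h')` the weight of these pairs is close to its sieve model at all
frequencies (library, project TP of helper16, from the uniformity of order three of the primes), so the sums over the
progressions agree by the circle method.
-/

set_option autoImplicit false

namespace Pool.Agent.Results.MP_a1f59e_nt.AlmostEveryProgression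

open Finset

open Classical in
/-- The number of the `h ≤ N` in `S` for which `x + h`, `x + y + h` and `x + 2 y + h` are primes. -/
noncomputable def gaps (S : Set ℕ) (N x y : ℕ) : ℕ :=
  ((Icc 1 N).filter (fun h => h ∈ S ∧ (x + h).Prime ∧ (x + y + h).Prime ∧ (x + 2 * y + h).Prime)).card

open Classical in
/-- The number of the `h ≤ N` in `S` for which `x + h`, `x + y + h` and `x + 2 y + h` have no prime factor `p ≤ z`. -/
noncomputable def rough (z : ℕ) (S : Set ℕ) (N x y : ℕ) : ℕ :=
  ((Icc 1 N).filter (fun h => h ∈ S ∧ ∀ p : ℕ, p.Prime → p ≤ z →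
    ¬ p ∣ x + h ∧ ¬ p ∣ x + y + h ∧ ¬ p ∣ x + 2 * y + h)).card

/-- The product of `1 - 1 / p` over the primes `p ≤ z`: the density of the integers without prime factors `p ≤ z`. -/
noncomputable def V (z : ℕ) : ℝ := ∏ p ∈ (Icc 1 z).filter Nat.Prime, (1 - 1 / (p : ℝ))

/-- The prediction: the number of the `h` without small prime factors of the three numbers, times the cube of the
probability `1 / (V(z) log N)` that such an integer is prime. -/
noncomputable def predicted (z : ℕ) (S : Set ℕ) (N x y : ℕ) : ℝ := rough z S N x y / (V z * Real.log N) ^ 3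

open Classical in
/-- **Almost every progression, arbitrary sets of gaps.** -/
theorem result (U K : ℕ) (ε : ℝ) (hε : 0 < ε) : ∃ E₀ : ℕ, ∀ E : ℕ, E₀ ≤ E → ∃ N₀ : ℕ, ∀ N : ℕ, N₀ ≤ N → ∀ S : Set ℕ,
    (((Icc 1 N ×ˢ Icc 1 N).filter (fun r => r.1 + 2 * r.2 ≤ N ∧
      ¬ |(gaps S N r.1 r.2 : ℝ) - predicted ⌈Real.log N ^ E⌉₊ S N r.1 r.2| ≤
        ε * predicted ⌈Real.log N ^ E⌉₊ S N r.1 r.2 + N / Real.log N ^ K)).card : ℝ) ≤ N ^ 2 / Real.log N ^ U := by
  obtain ⟨E₀, h0⟩ := Pool.Agent.Helper12.PV.variance Pool.Agent.E8helper56.TP.t_TTA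
    (Pool.Agent.E8helper56.TP.t_TEL Pool.Agent.E8helper97.TP.t_CIR)
    (Pool.Agent.E8helper91.TP.t_TRI Pool.Agent.E8helper16.TP.u3) (U + 2 * K)
  obtain ⟨n3, h3⟩ := Pool.Agent.Helper12.PV.close3 K ε hε
  refine ⟨E₀, fun E hE => ?_⟩
  obtain ⟨n1, h1⟩ := h0 (E + 1)
  obtain ⟨n2, h2⟩ := Pool.Agent.H373R2.T7.ev_L' 2
  refine ⟨n1 + n2 + n3 + 1, fun N hN S => ?_⟩
  have hL := h2 N (by omega)
  have hN0 : (0 : ℝ) < N := by exact_mod_cast (by omega : 0 < N)
  set L := Real.log (N : ℝ) with hLd
  have hL0 : 0 < L := by linarith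
  have hL1 : 1 ≤ L := by linarith
  set z : ℕ := ⌈L ^ E⌉₊ with hz
  have hz1 : L ^ E ≤ z := Nat.le_ceil _
  have hz2 : (z : ℝ) ≤ L ^ (E + 1) := by
    have h6 := (Nat.ceil_lt_add_one (show 0 ≤ L ^ E by positivity)).le
    have h7 : 1 ≤ L ^ E := one_le_pow₀ hL1
    rw [hz, pow_succ]
    nlinarith
  have key := h1 N (by omega) z ((pow_le_pow_right₀ hL1 hE).trans hz1) hz2 (fun h => if h ∈ S then (1 : ℝ) else 0) (by
    intro h
    split_ifs <;> simp)
  set J : ℕ × ℕ → ℝ := fun r => ∑ h ∈ Icc 1 N, (if h ∈ S then (1 : ℝ) else 0) *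
    (Pool.Agent.Helper12.PV.la h r.1 * Pool.Agent.Helper12.PV.la h (r.1 + r.2) * Pool.Agent.Helper12.PV.la h (r.1 + 2 * r.2) -
      Pool.Agent.Helper12.PV.lz z h r.1 * Pool.Agent.Helper12.PV.lz z h (r.1 + r.2) *
        Pool.Agent.Helper12.PV.lz z h (r.1 + 2 * r.2)) with hJ
  set X := (Icc 1 N ×ˢ Icc 1 N).filter (fun r => r.1 + 2 * r.2 ≤ N ∧
      ¬ |(gaps S N r.1 r.2 : ℝ) - predicted z S N r.1 r.2| ≤ ε * predicted z S N r.1 r.2 + N / L ^ K) with hX
  have hsub : X ⊆ Pool.Agent.E8helper16.TP.tri 2 N := by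
    intro r hr
    rw [hX, mem_filter] at hr
    unfold Pool.Agent.E8helper16.TP.tri
    rw [mem_filter]
    exact ⟨hr.1, hr.2.1⟩
  have hbig : ∀ r ∈ X, (N / L ^ K) ^ 2 ≤ J r ^ 2 := by
    intro r hr
    rw [hX, mem_filter, mem_product, mem_Icc, mem_Icc] at hr
    by_contra hcon
    push Not at hcon
    apply hr.2.2
    have hJr : |J r| ≤ N / L ^ K := by
      apply abs_le_of_sq_le_sq hcon.le (by positivity)
    have g := h3 N (by omega) z S r.1 (r.1 + r.2) (r.1 + 2 * r.2) (by omega) (by omega) hr.2.1 (by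
      refine le_trans (le_of_eq ?_) hJr
      congr 1
      rw [hJ]
      refine sum_congr rfl fun h _ => ?_
      unfold Pool.Agent.Helper12.PV.la Pool.Agent.Helper12.PV.lz Pool.Agent.E8helper28.LN.La
      rw [add_comm h r.1, add_comm h (r.1 + r.2), add_comm h (r.1 + 2 * r.2)])
    have e1 : Pool.Agent.Helper12.PV.p3 S r.1 (r.1 + r.2) (r.1 + 2 * r.2) N = gaps S N r.1 r.2 := by
      unfold Pool.Agent.Helper12.PV.p3 gaps
      congr 1
      refine filter_congr fun h _ => ?_
      rw [add_comm h r.1, add_comm h (r.1 + r.2), add_comm h (r.1 + 2 * r.2)]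
    have e2 : Pool.Agent.Helper12.PV.r3 z S r.1 (r.1 + r.2) (r.1 + 2 * r.2) N = rough z S N r.1 r.2 := by
      unfold Pool.Agent.Helper12.PV.r3 rough
      congr 1
      refine filter_congr fun h _ => ?_
      rw [add_comm h r.1, add_comm h (r.1 + r.2), add_comm h (r.1 + 2 * r.2)]
    rw [e1, e2] at g
    exact g
  have hfin : (X.card : ℝ) * (N / L ^ K) ^ 2 ≤ (N : ℝ) ^ 4 / L ^ (U + 2 * K) := by
    refine le_trans ?_ key
    calc (X.card : ℝ) * (N / L ^ K) ^ 2 = ∑ _r ∈ X, ((N : ℝ) / L ^ K) ^ 2 := by rw [sum_const, nsmul_eq_mul]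
      _ ≤ ∑ r ∈ X, J r ^ 2 := sum_le_sum hbig
      _ ≤ ∑ r ∈ Pool.Agent.E8helper16.TP.tri 2 N, J r ^ 2 :=
        sum_le_sum_of_subset_of_nonneg hsub (fun _ _ _ => sq_nonneg _)
  have e : (N : ℝ) ^ 4 / L ^ (U + 2 * K) = (N ^ 2 / L ^ U) * (N / L ^ K) ^ 2 := by
    rw [pow_add, pow_mul']
    field_simp
  rw [e] at hfin
  exact le_of_mul_le_mul_right hfin (by positivity)

end Pool.Agent.Results.MP_a1f59e_nt.AlmostEveryProgression
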