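import Mathlib
import Pool.Agent.Helper50.AQ.PatC

set_option autoImplicit false

/-! A third of the multiples of every even number are gaps between CONSECUTIVE primes along arbitrarily
long narrow arithmetic progressions of primes which all have the same neighbouring primes; the same for
a third of the differences of arbitrary sets. -/

open Finset Filter

namespace Pool.Agent.Results.MP_a1f59e_nt.GapsAlongProgressions

/-- `n ≡ a (mod N)`, and the primes at distance at most `R` from `n` are exactly the `n + h` with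
`h ∈ P`, `|h| ≤ R` -/
def Surrounded (N a R : ℕ) (P : Finset ℤ) (n : ℕ) : Prop :=
  n ≡ a [MOD N] ∧ ∀ m : ℕ, |(m : ℤ) - n| ≤ R → (m.Prime ↔ (m : ℤ) - n ∈ P)

open Classical in
/-- the number of `n ∈ [1, X]` such that all the `n + j * d`, `j < l`, have the surrounding `P` up to
distance `R` -/
noncomputable def cnt (N a R : ℕ) (P : Finset ℤ) (l X d : ℕ) : ℕ :=
  ((Icc 1 X).filter (fun n => ∀ j < l, Surrounded N a R P (n + j * d))).card

/-- `g` is a gap between consecutive primes along progressions: for some set `P` of at most `J` integers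
which contains `0` and `g`, and nothing between them, and for every distance `R` and every length `l`,
there are many arithmetic progressions of length `l` and small difference of primes which are `a` modulo
`N` and have the surrounding `P` up to distance `R` -/
def Gap (J N a g : ℕ) : Prop := ∃ P : Finset ℤ, P.card ≤ J ∧ 0 ∈ P ∧ (g : ℤ) ∈ P ∧
  (∀ h ∈ P, h ≤ 0 ∨ (g : ℤ) ≤ h) ∧
  ∀ R l : ℕ, ∃ C : ℕ, ∃ᶠ X : ℕ in atTop, ∃ d : ℕ, 1 ≤ d ∧ (d : ℝ) ≤ Real.log X ^ C ∧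
    (X : ℝ) / Real.log X ^ C ≤ (cnt N a R P l X d : ℝ)

open Pool.Agent.Helper50.AQB in
theorem gap_of {J N a g k : ℕ} (hk : k ∈ GapAP J N a) (hg : N * k = g) : Gap J N a g := by
  subst hg
  obtain ⟨-, P, hP, hP0, hP1, hP2, hP3⟩ := hk
  refine ⟨P, hP, hP0, hP1, hP2, fun R l => ?_⟩
  obtain ⟨C, hC⟩ := hP3 R l
  refine ⟨C, hC.mono ?_⟩
  rintro X ⟨d, h4, h5, h6⟩
  refine ⟨d, h4, h5, h6.trans (le_of_eq ?_)⟩
  unfold cnt
  congr!

open Classical in
theorem result : ∃ J s : ℕ,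
    -- the multiples of every even number `m`, from the beginning, uniformly in `m`
    (∀ ε : ℝ, 0 < ε → ∃ H₀ : ℕ, ∀ m N a : ℕ, 0 < m → 2 ∣ N → N ∣ m → a.Coprime N →
      ∀ H : ℕ, H₀ ≤ H → (1 / 3 - ε) * (H : ℝ) ≤
        (((Icc 1 H).filter (fun k => Gap J N a (m * k))).card : ℝ)) ∧
    -- the multiples of every even number `m` in windows
    (∀ ε : ℝ, 0 < ε → ∀ m N a : ℕ, 0 < m → 2 ∣ N → N ∣ m → a.Coprime N →
      ∃ L : ℕ, ∀ M : ℕ, L ≤ M → ∀ u : ℕ, (1 / 3 - ε) * (M : ℝ) ≤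
        (((Ioc u (u + M)).filter (fun k => Gap J N a (m * k))).card : ℝ)) ∧
    -- arbitrary sets
    (∀ ε : ℝ, 0 < ε → ∃ n₀ : ℕ, ∀ N a : ℕ, 0 < N → 2 ∣ N → a.Coprime N →
      ∀ A : Finset ℕ, n₀ ≤ A.card → (3 ∣ N ∨ ∃ r : ℕ, ∀ x ∈ A, ¬ 3 ∣ r + x) →
      (1 / 3 - ε) * (A.card.choose 2 : ℝ) ≤
        (((A ×ˢ A).filter (fun p => p.1 < p.2 ∧ Gap J N a (N * (p.2 - p.1)))).card : ℝ)) ∧
    -- large subsets
    (∀ N a : ℕ, 0 < N → 2 ∣ N → a.Coprime N → ∀ A : Finset ℕ,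
      ∃ B ⊆ A, A.card ≤ 3 * (B.card + 1) ^ s ∧
        ∀ x ∈ B, ∀ y ∈ B, x < y → Gap J N a (N * (y - x))) := by
  obtain ⟨J, s, h1, h2, h3, h4⟩ := Pool.Agent.Helper50.AQB.all
  refine ⟨J, s, fun ε hε => ?_, fun ε hε => ?_, fun ε hε => ?_, fun N a hN hN2 ha A => ?_⟩
  · obtain ⟨H₀, h⟩ := h1 ε hε
    refine ⟨H₀, fun m N a hm hN2 hNm ha H hH => ?_⟩
    obtain ⟨b, rfl⟩ := hNm
    have hN0 : 0 < N := Nat.pos_of_mul_pos_right hm
    have hb : 0 < b := Nat.pos_of_mul_pos_left hm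
    refine (h N a hN0 hN2 ha b hb H hH).trans ?_
    rw [Nat.cast_le]
    refine card_le_card (monotone_filter_right _ fun k _ hk => gap_of hk (by ring))
  · intro m N a hm hN2 hNm ha
    obtain ⟨b, rfl⟩ := hNm
    have hN0 : 0 < N := Nat.pos_of_mul_pos_right hm
    have hb : 0 < b := Nat.pos_of_mul_pos_left hm
    obtain ⟨L, hL⟩ := h2 N b a hb hN0 hN2 ha ε hε
    refine ⟨L, fun M hM u => (hL M hM u).trans ?_⟩
    rw [Nat.cast_le, ← Set.ncard_coe_finset]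
    refine Set.ncard_le_ncard ?_ (Finset.finite_toSet _)
    rintro k ⟨h5, h6, h7⟩
    rw [mem_coe, mem_filter, mem_Ioc]
    exact ⟨⟨h5, h6⟩, gap_of h7 (by ring)⟩
  · obtain ⟨n₀, h⟩ := h3 ε hε
    refine ⟨n₀, fun N a hN hN2 ha A hA h3 => (h N a hN hN2 ha A hA ?_).trans ?_⟩
    · refine h3.imp_right fun ⟨r, hr⟩ => ⟨r, fun x hx hd => hr x (mem_coe.1 hx) ?_⟩
      exact_mod_cast hd
    · rw [Nat.cast_le]
      exact card_le_card (monotone_filter_right _ fun p _ hp => ⟨hp.1, gap_of hp.2 rfl⟩)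
  · obtain ⟨B, hB, hB1, hB2⟩ := h4 N a hN hN2 ha A
    exact ⟨B, hB, hB1, fun x hx y hy hxy => gap_of (hB2 x hx y hy hxy) rfl⟩

end Pool.Agent.Results.MP_a1f59e_nt.GapsAlongProgressions
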