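import Pool.Agent.Helper51.UL.Fin

/-!
# Homothetic copies of arbitrary configurations in ARBITRARY sets of twin primes and of rough twins

(1) Let `A` be ANY set of integers `n` in an interval `(u, u + Y]`, `u ≤ Y ^ C`, such that all prime factors of `n`
and of `n + 2` are larger than `Y ^ θ` (for instance any set of first members `n > Y ^ θ` of twin primes). Let `H ≥ 1`
and `D` be such that `D ≥ (log Y) ^ B`, `D ≥ H ^ ε` and `D H ≤ Y ^ (1 - ε)`, and let `T` be ANY set of at most `k`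
integers in `[-H, H]`. All but at most `δ Y / (log Y) ^ 2` of the elements `n` of `A` have this property: for at least
`D ^ (1 - ε)` of the dilations `1 ≤ d ≤ D` all the numbers `n + d t`, `t ∈ T`, belong to `A`. The exponent `B` depends
only on `C, k, ε, θ, δ`; there is no condition on `T`, which may depend on `Y` and have elements up to
`Y ^ (1 - 2 ε)`.

(2) For large `r` let `A` be the set of the primes `p` in `(X, 2 X]` for which `p + 2` has at most `r` prime factors, all
larger than `p ^ (1 / r)`. At least `c X / (log X) ^ 2` of the elements `p` of `A` have, for all these `D`, `H` and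
`T`, at least `D ^ (1 - ε)` dilations `1 ≤ d ≤ D` for which all the `p + d t`, `t ∈ T`, belong to `A`.

For `T = {0, b, 2 b, ..., (l - 1) b}`: every `b ≤ Y ^ (1 - 2 ε)` divides the common differences of many `l`-term
arithmetic progressions of (almost) twin primes, with the quotient at most `max (b ^ ε) ((log Y) ^ B)`, starting at
almost all elements of `A`.
-/

set_option autoImplicit false

open Finset

namespace Pool.Agent.Results.MP_a1f59e_nt.HomotheticTwins

/-- All prime factors of `n` and of `n + 2` are larger than `y`. -/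
def RoughTwin (y : ℝ) (n : ℕ) : Prop := ∀ q : ℕ, q.Prime → q ∣ n ∨ q ∣ n + 2 → y < q

/-- The number of the dilations `1 ≤ d ≤ D` for which all the numbers `n + d t`, `t ∈ T`, belong to `A`. -/
noncomputable def copies (A : Set ℕ) (T : Finset ℤ) (D n : ℕ) : ℕ :=
  {d : ℕ | 1 ≤ d ∧ d ≤ D ∧ ∀ t ∈ T, ∃ m ∈ A, (m : ℤ) = n + d * t}.ncard

/-- The primes `p` in `(X, 2 X]` for which `p + 2` has at most `r` prime factors, all larger than `p ^ (1 / r)`. -/
def AlmostTwins (r X : ℕ) : Set ℕ :=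
  {p | X < p ∧ p ≤ 2 * X ∧ p.Prime ∧ (p + 2).primeFactorsList.length ≤ r ∧
    ∀ q : ℕ, q.Prime → q ∣ p + 2 → (p : ℝ) ^ (1 / (r : ℝ)) < q}

/-- **Homothetic copies of arbitrary configurations in arbitrary sets of twins.** -/
theorem result :
    (∀ (C k : ℕ) (ε θ δ : ℝ), 0 < ε → ε < 1 → 0 < θ → 0 < δ → ∃ B : ℕ, ∀ Y H D u : ℕ,
      B ≤ Y → u ≤ Y ^ C → 1 ≤ H → Real.log Y ^ B ≤ D → (H : ℝ) ^ ε ≤ D →
      (D : ℝ) * H ≤ (Y : ℝ) ^ (1 - ε) →
      ∀ A : Set ℕ, (∀ n ∈ A, u < n ∧ n ≤ u + Y ∧ RoughTwin ((Y : ℝ) ^ θ) n) →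
      ∀ T : Finset ℤ, T.card ≤ k → (∀ t ∈ T, |t| ≤ H) →
        ({n : ℕ | n ∈ A ∧ (copies A T D n : ℝ) < (D : ℝ) ^ (1 - ε)}.ncard : ℝ) ≤
          δ * (Y / Real.log Y ^ 2)) ∧
    (∃ r₀ : ℕ, ∀ r : ℕ, r₀ ≤ r → ∃ c : ℝ, 0 < c ∧ ∀ (k : ℕ) (ε : ℝ), 0 < ε → ε < 1 →
      ∃ B : ℕ, ∀ X H D : ℕ, B ≤ X → 1 ≤ H → Real.log X ^ B ≤ D → (H : ℝ) ^ ε ≤ D →
      (D : ℝ) * H ≤ (X : ℝ) ^ (1 - ε) →
      ∀ T : Finset ℤ, T.card ≤ k → (∀ t ∈ T, |t| ≤ H) →
        c * (X / Real.log X ^ 2) ≤ ({p : ℕ | p ∈ AlmostTwins r X ∧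
          (D : ℝ) ^ (1 - ε) ≤ (copies (AlmostTwins r X) T D p : ℝ)}.ncard : ℝ)) := by
  have hc : ∀ A T D n, copies A T D n = Pool.Agent.Helper51.UL.cps A T D n := fun _ _ _ _ => rfl
  constructor
  · intro C k ε θ δ hε hε1 hθ hδ
    obtain ⟨B, hB⟩ := Pool.Agent.Helper51.UL.ptSet (fun _ : Fin 2 => 1) ![0, 2] (fun _ => le_rfl)
      (by
        intro i j hij
        fin_cases i <;> fin_cases j
        · exact absurd rfl hij
        · simp
        · simp
        · exact absurd rfl hij) C k ε θ δ hε hε1 hθ hδ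
    refine ⟨B, fun Y H D u hY hu hH hBD hHD hDY A hA T hTk hT => ?_⟩
    have h1 := hB Y H D u hY hu hH hBD hHD hDY A (by
      intro n hn
      obtain ⟨e1, e2, e3⟩ := hA n hn
      refine ⟨e1, e2, fun i q hq hqd => e3 q hq ?_⟩
      fin_cases i
      · left
        simp only [Nat.cast_one, one_mul, Fin.zero_eta, Matrix.cons_val_zero, add_zero] at hqd
        exact Int.natCast_dvd_natCast.1 hqd
      · right
        simp only [Nat.cast_one, one_mul, Fin.mk_one, Matrix.cons_val_one] at hqd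
        have h2 : (q : ℤ) ∣ ((n + 2 : ℕ) : ℤ) := by
          push_cast
          simpa using hqd
        exact Int.natCast_dvd_natCast.1 h2) T hTk hT
    simp only [hc]
    exact h1
  · obtain ⟨r₀, h⟩ := Pool.Agent.Helper51.UL.genPs (fun _ : Fin 1 => 1) (fun _ => (2 : ℤ))
      (fun _ => one_pos) (fun _ => by rw [Nat.cast_one]; exact isCoprime_one_left)
      (fun _ => by norm_num) (fun i j hij => absurd (Subsingleton.elim i j) hij)
      (fun p hp => by
        rcases lt_or_ge p 3 with h | h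
        · have h2 : p = 2 := le_antisymm (by omega) hp.two_le
          subst h2
          exact ⟨1, by decide, fun _ => by decide⟩
        · rcases eq_or_lt_of_le h with h3 | h3
          · subst h3
            exact ⟨2, by decide, fun _ => by decide⟩
          · refine ⟨1, fun hd => ?_, fun _ hd => ?_⟩
            · exact hp.one_lt.ne' (Nat.dvd_one.1 hd)
            · have h4 : (p : ℤ) ∣ ((3 : ℕ) : ℤ) := by
                have e : ((1 : ℕ) : ℤ) * ((1 : ℕ) : ℤ) + 2 = ((3 : ℕ) : ℤ) := by norm_num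
                rwa [e] at hd
              have := Nat.le_of_dvd (by norm_num) (Int.natCast_dvd_natCast.1 h4)
              omega)
    refine ⟨r₀, fun r hr => ?_⟩
    obtain ⟨c, hc0, h⟩ := h r hr
    refine ⟨c, hc0, fun k ε hε hε1 => ?_⟩
    obtain ⟨B, hB⟩ := h k ε hε hε1
    refine ⟨B, fun X H D hX hH hBD hHD hDX T hTk hT => ?_⟩
    have h1 := hB X H D hX hH hBD hHD hDX T hTk hT
    have e : Pool.Agent.Helper51.UL.AlmP (fun _ : Fin 1 => 1) (fun _ => (2 : ℤ)) r X =
        AlmostTwins r X := by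
      ext p
      unfold Pool.Agent.Helper51.UL.AlmP AlmostTwins
      have e1 : ((1 : ℕ) : ℤ) * (p : ℤ) + (2 : ℤ) = ((p + 2 : ℕ) : ℤ) := by
        push_cast
        ring
      simp only [Set.mem_ofPred_eq, e1, Int.natAbs_natCast, Int.natCast_dvd_natCast,
        forall_const]
    rw [e] at h1
    simp only [hc]
    exact h1

end Pool.Agent.Results.MP_a1f59e_nt.HomotheticTwins
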