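import Pool.Agent.Helper51.UG.Idx

set_option autoImplicit false

/-!
# Patterns and progressions of prime pairs `p, p + g` whose gap is (near) a value of a polynomial

For twin primes (`g = 2`) the question is whether there are arbitrarily long arithmetic progressions of integers `p` with `p`
and `p + g` prime. Let `f` be ANY polynomial with integral coefficients, of degree `k ≥ 1` and with positive leading
coefficient (for example `f = X ^ 2`). We consider the gaps near its values. For all but `x / log ^ U x` of the integers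
`j ≤ x`, EVERY even `g > 0` with `|g - f(j)| ≤ log ^ D x` (for example `g = j ^ 2`, `j` even) has the following properties. In EVERY
window `(u, u + X]` within `(0, B x ^ k]` of length at least `x ^ k / log ^ A x` the number of the prime pairs with gap `g` has at
least the expected order of magnitude. For EVERY set `P` of such pairs in the window and EVERY finite set `T` of at most `m`
integers in `[-H, H]`, all but a proportion `δ` (of the number of all prime pairs with gap `g` in the window) of the elements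
`p` of `P` have `p + d T` contained in `P` for at least `D' ^ (1 - ε)` of the `d ≤ D'`, uniformly up to `D' H = X ^ (1 - ε)`. In
particular (`T = {0, b, ..., (l - 1) b}`) almost all elements of every dense set of prime pairs with gap `g` are the first
terms of many `l`-term progressions in the set with a difference divisible by `b`, for every `l` and every `b`.
-/

namespace Pool.Agent.Results.MP_a1f59e_nt.PolynomialGaps

open Finset Filter Polynomial
open Pool.Agent.Helper51.UG (PV cps famW pair)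
open Pool.Agent.H373R2.T7 (energy)

/-- The primes `p` of the window `(u, u + X]` for which `p + g` is also a prime. -/
def Pairs (g u X : ℕ) : Set ℕ := {p | u < p ∧ p ≤ u + X ∧ p.Prime ∧ (p + g).Prime}

/-- The number of the `1 ≤ d ≤ D` for which all the numbers `p + d t`, `t ∈ T`, belong to `P`. -/
noncomputable def scales (P : Set ℕ) (T : Finset ℤ) (D p : ℕ) : ℕ :=
  {d : ℕ | 1 ≤ d ∧ d ≤ D ∧ ∀ t ∈ T, ∃ q ∈ P, (q : ℤ) = p + d * t}.ncard

/-- The two properties of the gap `g`, for the windows within `(0, M]` of length at least `Y`; `L` is the logarithm. -/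
def Rich (c : ℝ) (m : ℕ) (ε δ L Y : ℝ) (M g : ℕ) : Prop :=
  ∀ u X : ℕ, u + X ≤ M → Y ≤ X →
    c * (X / L ^ 2) ≤ ((Pairs g u X).ncard : ℝ) ∧
    ∀ H D : ℕ, 1 ≤ H → (X : ℝ) ^ ε ≤ D → (D : ℝ) * H ≤ (X : ℝ) ^ (1 - ε) →
      ∀ P ⊆ Pairs g u X, ∀ T : Finset ℤ, T.card ≤ m → (∀ t ∈ T, |t| ≤ H) →
        ({p : ℕ | p ∈ P ∧ (scales P T D p : ℝ) < (D : ℝ) ^ (1 - ε)}.ncard : ℝ) ≤
          δ * ((Pairs g u X).ncard : ℝ)

theorem pv_pairs (g u X : ℕ) : PV (fun _ : Fin 1 => (1 : ℤ)) (fun _ => (g : ℤ)) u X = Pairs g u X := by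
  ext p
  unfold PV Pairs
  constructor
  · rintro ⟨h1, h2, h3, h4⟩
    have h5 := h4 0
    rw [one_mul, ← Nat.cast_add, Int.natAbs_natCast] at h5
    exact ⟨h1, h2, h3, h5⟩
  · rintro ⟨h1, h2, h3, h4⟩
    refine ⟨h1, h2, h3, fun _ => ?_⟩
    rw [one_mul, ← Nat.cast_add, Int.natAbs_natCast]
    exact h4

/-- the values of a polynomial are bounded -/
theorem eval_le (f : ℤ[X]) (x j : ℕ) (hj : j ≤ x) (hx : 1 ≤ x) :
    |f.eval (j : ℤ)| ≤ (∑ i ∈ range (f.natDegree + 1), (f.coeff i).natAbs : ℕ) * ((x ^ f.natDegree : ℕ) : ℤ) := by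
  rw [eval_eq_sum_range]
  refine (abs_sum_le_sum_abs _ _).trans ?_
  push_cast
  rw [sum_mul]
  apply sum_le_sum
  intro i hi
  rw [mem_range] at hi
  rw [abs_mul, abs_pow, Nat.abs_cast]
  apply mul_le_mul_of_nonneg_left _ (abs_nonneg _)
  have h1 : j ^ i ≤ x ^ f.natDegree :=
    (Nat.pow_le_pow_left hj i).trans (Nat.pow_le_pow_right hx (by omega))
  exact_mod_cast h1

/-- **Prime pairs whose gap is near a value of a polynomial.** -/
theorem result (f : ℤ[X]) (hd : 1 ≤ f.natDegree) (hl : 0 < f.leadingCoeff) :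
    ∃ c : ℝ, 0 < c ∧ ∀ (A B D U m : ℕ) (ε δ : ℝ), 0 < ε → ε ≤ 1 / 2 → 0 < δ →
    ∃ x₀ : ℕ, ∀ x : ℕ, x₀ ≤ x → ∃ E : Finset ℕ, (E.card : ℝ) ≤ x / Real.log x ^ U ∧
      ∀ j ∈ Icc 1 x, j ∉ E → ∀ g : ℕ, 0 < g → Even g →
        |((g - f.eval (j : ℤ) : ℤ) : ℝ)| ≤ Real.log x ^ D →
          Rich c m ε δ (Real.log x) ((x : ℝ) ^ f.natDegree / Real.log x ^ A) (B * x ^ f.natDegree) g := by
  classical
  obtain ⟨h, C, hC, hen⟩ := Pool.Agent.H373R2.T7.energy_poly f hd hl
  obtain ⟨c, hc, hpair⟩ := pair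
  set k : ℕ := f.natDegree with hk
  have hk0 : (0 : ℝ) < k := by exact_mod_cast hd
  refine ⟨c / k ^ 2, by positivity, fun A B D U m ε δ hε hε1 hδ => ?_⟩
  set B₀ : ℕ := ∑ i ∈ range (k + 1), (f.coeff i).natAbs with hB₀
  obtain ⟨N₀, h0⟩ := famW 1 h 1 A (B + B₀) 1 D U m le_rfl ε δ hε (by linarith) hδ
  obtain ⟨N₁, h1⟩ := Pool.Agent.H373R2.T7.ev_L' (max C 1)
  refine ⟨max (max N₀ N₁) 3, fun x hx => ?_⟩
  have g0 : N₀ ≤ x := ((le_max_left _ _).trans (le_max_left _ _)).trans hx
  have g1 := h1 x (((le_max_right _ _).trans (le_max_left _ _)).trans hx)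
  have g2 : 3 ≤ x := (le_max_right _ _).trans hx
  have hx3 : (3 : ℝ) ≤ x := by exact_mod_cast g2
  have hx0 : (0 : ℝ) < x := by linarith
  set N : ℕ := x ^ k with hN
  have hxN : x ≤ N := Nat.le_self_pow (by omega) x
  have hNR : (N : ℝ) = (x : ℝ) ^ k := by
    rw [hN]
    push_cast
    rfl
  have hLN : Real.log N = k * Real.log x := by rw [hNR, Real.log_pow]
  set L : ℝ := Real.log x with hL
  have hL1 : 1 ≤ L := (le_max_right _ _).trans g1
  have hLC : C ≤ L := (le_max_left _ _).trans g1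
  have hLLN : L ≤ Real.log N := by
    rw [hLN]
    have : (1 : ℝ) ≤ k := by exact_mod_cast hd
    nlinarith
  set s : Fin 1 → ℕ → ℤ := fun _ j => f.eval (j : ℤ) with hs
  set 𝒮 : Finset (Fin 1 → ℕ) := (Fintype.piFinset (fun _ : Fin 1 => Icc 1 x)).filter (fun q =>
    ∃ β : Fin 1 → ℤ, (∀ i, |((β i - s i (q i) : ℤ) : ℝ)| ≤ Real.log N ^ D) ∧
      ¬ Pool.Agent.Helper51.UG.Rich 1 (B + B₀ + 1) A m ε δ N β) with h𝒮
  have h2 := h0 N (g0.trans hxN) (fun _ => x) s (fun i j hj => ?_) (fun i => ?_) 𝒮 (filter_subset _ _)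
    (fun q hq => (mem_filter.1 hq).2)
  · refine ⟨𝒮.image (fun q => q 0), ?_, ?_⟩
    · have h3 : ((𝒮.image (fun q => q 0)).card : ℝ) ≤ 𝒮.card := by exact_mod_cast card_image_le
      refine h3.trans (h2.trans ?_)
      rw [Fin.prod_univ_one]
      gcongr
    · intro j hj hjE g hg hgev hgf
      have hR : Pool.Agent.Helper51.UG.Rich 1 (B + B₀ + 1) A m ε δ N (fun _ : Fin 1 => (g : ℤ)) := by
        by_contra hcon
        apply hjE
        rw [mem_image]
        refine ⟨fun _ => j, mem_filter.2 ⟨Fintype.mem_piFinset.2 fun _ => hj, fun _ => (g : ℤ), fun i => ?_, hcon⟩, rfl⟩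
        refine hgf.trans ?_
        gcongr
      intro u X huX hX
      have hX2 : (N : ℝ) / Real.log N ^ A ≤ X := by
        refine le_trans ?_ hX
        rw [hNR]
        rw [hNR] at hLLN
        gcongr
      obtain ⟨e1, e2⟩ := hpair 1 (B + B₀ + 1) A m ε δ le_rfl hε hε1 N (g2.trans hxN) _ hR (fun _ => 1)
        (Or.inl rfl) (by exact_mod_cast hgev) (by exact_mod_cast hg.ne') u X
        (huX.trans (Nat.mul_le_mul_right _ (by omega))) hX2
      rw [pv_pairs] at e1 e2
      refine ⟨?_, fun H D' hH hD hDH P hP T hTm hT => e2 (fun n hn _ => ?_) H D' hH hD hDH P hP T hTm hT⟩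
      · refine le_trans (le_of_eq ?_) e1
        rw [hLN]
        field_simp
      · have h4 : (0 : ℤ) ≤ (n : ℤ) := Int.natCast_nonneg n
        have h5 : (0 : ℤ) < (g : ℤ) := by exact_mod_cast hg
        have : (1 : ℤ) * (n : ℤ) + g = n + g := by ring
        rw [this]
        omega
  · rw [mem_Icc] at hj
    have h3 := eval_le f x j hj.2 (by omega)
    rw [← hk] at h3
    refine h3.trans ?_
    rw [← hB₀, ← hN]
    apply mul_le_mul_of_nonneg_right _ (Int.natCast_nonneg _)
    push_cast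
    have : (0 : ℤ) ≤ B := Int.natCast_nonneg B
    omega
  · have h3 := hen x (by omega)
    show (energy h x (fun j => f.eval (j : ℤ)) : ℝ) * N ≤ Real.log N ^ 1 * (x : ℝ) ^ (2 * h)
    rw [hNR] at hLLN ⊢
    refine h3.trans ?_
    rw [pow_one]
    apply mul_le_mul_of_nonneg_right _ (by positivity)
    linarith

end Pool.Agent.Results.MP_a1f59e_nt.PolynomialGaps
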